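import Pool.Agent.Y790.SP.Final
import Pool.Agent.TH56.GT.Fin

/-!
# The smallest graceful tree containing a given spider: `γ(T) = |E(T)|` for large families of spiders

A spider is a tree with a vertex `v` all of whose other vertices have degree at most two; its legs are the
components of `T - v`.  We prove `γ(T) = |E(T)|` (so `T` itself is the smallest graceful tree containing `T`)
if at most five legs have length at least two, and if all legs except some super-increasing ones, two
arbitrary ones and any number of legs of length one have nearly equal lengths.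
-/

set_option autoImplicit false

namespace Pool.Agent.Results.MP_128071_co.SpiderFamilies

/-- A graph with `m` edges is graceful if there is an injective map `f` of the vertices to
`{0, 1, …, m}` such that the edge labels `|f u - f v|` are exactly `1, …, m`. -/
def Graceful {V : Type} (T : SimpleGraph V) : Prop :=
  ∃ f : V → ℕ, Function.Injective f ∧ (∀ v, f v ≤ T.edgeSet.ncard) ∧
    {d : ℕ | ∃ u v : V, T.Adj u v ∧ d = Int.natAbs ((f u : ℤ) - (f v : ℤ))} =
      Set.Icc 1 T.edgeSet.ncard

/-- The numbers of edges of the finite graceful trees which have a subgraph isomorphic to `T`. -/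
def gracefulSizes {V : Type} (T : SimpleGraph V) : Set ℕ :=
  {k | ∃ (W : Type) (_ : Fintype W) (T' : SimpleGraph W),
    T'.IsTree ∧ Graceful T' ∧ T.IsContained T' ∧ T'.edgeSet.ncard = k}

/-- `γ(T)`: the least number of edges of a graceful tree which has a subgraph isomorphic to `T`. -/
noncomputable def gamma {V : Type} (T : SimpleGraph V) : ℕ := sInf (gracefulSizes T)

/-- A list of numbers is super-increasing if each entry `p` is larger than twice the sum `s` of the halves
(rounded down) of the entries before it, and is not `4 s + 1` unless `s = 0`. -/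
def SuperIncreasing (L : List ℕ) : Prop :=
  ∀ G p H, L = G ++ p :: H → 2 * (G.map (fun x => x / 2)).sum < p ∧
    (p = 4 * (G.map (fun x => x / 2)).sum + 1 → (G.map (fun x => x / 2)).sum = 0)

/-- The lengths of the legs at `v` are the entries of `E`, `F`, `I` and `u` times the number `1`; here `E` has
two arbitrary entries (not `2, 2`) or is super-increasing, `F` is super-increasing, and the entries of `I` are
between `a` and `b`, where `a = b` and `F` is empty, or `30 (b - a) + 4 σ + 4 ≤ a` for the sum `σ` of the
halves (rounded down) of the entries of `F`, or `12 (b - a) + 4 σ + 4 ≤ a` and all the entries of `I` have the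
same parity. -/
def NearlyEqualLegs {V : Type} (T : SimpleGraph V) (v : V) : Prop :=
  ∃ (E F I : List ℕ) (u a b : ℕ),
    (∀ n, {x : V | x ≠ v ∧ (T.neighborSet x).ncard = 1 ∧ T.dist v x = n}.ncard =
      (E ++ F ++ I ++ List.replicate u 1).count n) ∧
    ((∃ p q, E = [p, q] ∧ 1 ≤ p ∧ 1 ≤ q ∧ ¬ (p = 2 ∧ q = 2)) ∨ SuperIncreasing E) ∧
    SuperIncreasing F ∧ 1 ≤ a ∧ (∀ n ∈ I, a ≤ n ∧ n ≤ b) ∧
    ((a = b ∧ F = []) ∨ 30 * (b - a) + 4 * (F.map (fun x => x / 2)).sum + 4 ≤ a ∨
      (12 * (b - a) + 4 * (F.map (fun x => x / 2)).sum + 4 ≤ a ∧ ∃ e, ∀ n ∈ I, n % 2 = e))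

theorem le_of_mem {V : Type} {T : SimpleGraph V} {k : ℕ}
    (hk : k ∈ gracefulSizes T) : T.edgeSet.ncard ≤ k := by
  classical
  obtain ⟨W, _, T', _, _, ⟨φ⟩, rfl⟩ := hk
  have hinj : Function.Injective φ := φ.injective
  have h1 : Sym2.map φ '' T.edgeSet ⊆ T'.edgeSet := by
    rintro _ ⟨e, he, rfl⟩
    induction e using Sym2.ind with
    | _ x y =>
      rw [Sym2.map_mk, SimpleGraph.mem_edgeSet]
      exact φ.toHom.map_adj ((SimpleGraph.mem_edgeSet T).1 he)
  calc T.edgeSet.ncard = (Sym2.map φ '' T.edgeSet).ncard :=
        (Set.ncard_image_of_injective _ (Sym2.map.injective hinj)).symm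
    _ ≤ T'.edgeSet.ncard := Set.ncard_le_ncard h1 (Set.toFinite _)

/-- Let `T` be a finite tree and `v` a vertex such that all the other vertices have degree at most two (a
spider).  If at most five neighbours of `v` have degree two (at most five legs of length at least two), or if
the legs at `v` satisfy `NearlyEqualLegs`, then `T` is graceful and `γ(T) = |E(T)|`, the least possible
value. -/
theorem result (V : Type) [Fintype V] (T : SimpleGraph V) (hT : T.IsTree) (v : V)
    (hdeg : ∀ x, x ≠ v → (T.neighborSet x).ncard ≤ 2)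
    (h : {w : V | T.Adj v w ∧ (T.neighborSet w).ncard = 2}.ncard ≤ 5 ∨ NearlyEqualLegs T v) :
    Graceful T ∧ T.edgeSet.ncard ∈ gracefulSizes T ∧ gamma T = T.edgeSet.ncard := by
  have hg : Graceful T := by
    rcases h with h | ⟨E, F, I, u, a, b, hL, hE, hF, ha, hI, hc⟩
    · exact Pool.Agent.TH56.GT.five V T hT v hdeg h
    · exact Pool.Agent.Y790.SP.main V T hT v hdeg E F I u a b hL hE hF ha hI hc
  have hm : T.edgeSet.ncard ∈ gracefulSizes T :=
    ⟨V, inferInstance, T, hT, hg, SimpleGraph.IsContained.refl T, rfl⟩
  exact ⟨hg, hm, le_antisymm (Nat.sInf_le hm) (le_of_mem (Nat.sInf_mem ⟨_, hm⟩))⟩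

end Pool.Agent.Results.MP_128071_co.SpiderFamilies
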